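import Pool.Agent.Run7.h102.LS.Main

/-! # MP_720dbd_nt: an upper bound for the linearized double shuffle space in every depth

`dim D_(r, n) ≤ 2 (n + r + r^2)^(r-1) / (r+2)!` for every depth `r ≥ 4` and every degree `n` (weight `n + r`). The
same bound holds for the depth graded motivic Lie algebra, which is contained in it. -/

set_option autoImplicit false

namespace Pool.Agent.Results.MP_720dbd_nt.UpperBoundInEveryDepth

open Run7.h102.LS

/-- Let `r ≥ 4` and let `D ℚ r n` be the space of the homogeneous polynomials of degree `n` in `r` variables over `ℚ` that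
satisfy the linearized double shuffle equations. It is finite-dimensional, and
`(r + 2)! dim (D ℚ r n) ≤ 2 (n + r + r^2)^(r-1)`. -/
theorem result (r n : ℕ) (hr : 4 ≤ r) : Module.Finite ℚ (D ℚ r n) ∧
    (r + 2).factorial * Module.finrank ℚ (D ℚ r n) ≤ 2 * (n + r + r ^ 2) ^ (r - 1) :=
  ⟨finD ℚ r n, ls_bound r n hr⟩

end Pool.Agent.Results.MP_720dbd_nt.UpperBoundInEveryDepth
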